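import Pool.Agent.H56.PR.Sign

/-!
# The product of a graph with the signs of a Hadamard matrix
-/

set_option autoImplicit false

namespace Pool.Agent.H56.PR

open Finset

variable {P : Type} [Fintype P]

/-- The vertices of the product. -/
abbrev W (P : Type) (k : ℕ) : Type := P × Bool × Fin (4 ^ k)

/-- A symmetric and irreflexive test. -/
structure Test (P : Type) where
  /-- the test -/
  a : P → P → Bool
  symm : ∀ v w, a v w = a w v
  irrefl : ∀ v, a v v = false

/-- The test of the product. -/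
def prodTest (t : Test P) (k : ℕ) : Test (W P k) where
  a p q := t.a p.1 q.1 ^^ ((p.2.1 ^^ q.2.1) ^^ par k p.2.2 q.2.2)
  symm p q := by
    rw [t.symm q.1 p.1, par_comm k q.2.2 p.2.2, Bool.xor_comm q.2.1 p.2.1]
  irrefl p := by
    rw [t.irrefl, par_self]
    cases p.2.1 <;> rfl

/-- The graph of a test. -/
def Test.graph {V : Type} (t : Test V) : SimpleGraph V where
  Adj v w := t.a v w = true
  symm := ⟨fun v w h => by rw [← t.symm]; exact h⟩
  loopless := ⟨fun v h => by rw [t.irrefl] at h; exact absurd h (by simp)⟩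

instance {V : Type} (t : Test V) : DecidableRel t.graph.Adj := fun v w =>
  inferInstanceAs (Decidable (t.a v w = true))

theorem Test.graph_adj {V : Type} (t : Test V) (v w : V) : t.graph.Adj v w ↔ t.a v w = true :=
  Iff.rfl

omit [Fintype P] in
theorem sg_prod (t : Test P) (k : ℕ) (p q : W P k) : sg ((prodTest t k).a p q) =
    sg (t.a p.1 q.1) * (sg (p.2.1 ^^ q.2.1) * sg (par k p.2.2 q.2.2)) := by
  show sg (t.a p.1 q.1 ^^ ((p.2.1 ^^ q.2.1) ^^ par k p.2.2 q.2.2)) = _
  rw [sg_xor, sg_xor]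

theorem sum_sg_bool (i : Bool) : ∑ j : Bool, sg (i ^^ j) = 0 := by
  cases i <;> simp

/-- All row sums vanish. -/
theorem row_sum (t : Test P) (k : ℕ) (p : W P k) : ∑ q : W P k, sg ((prodTest t k).a p q) = 0 := by
  rw [Fintype.sum_prod_type]
  refine Finset.sum_eq_zero fun v _ => ?_
  rw [Fintype.sum_prod_type]
  simp only [sg_prod]
  have h : ∀ j : Bool, ∑ x : Fin (4 ^ k), sg (t.a p.1 v) * (sg (p.2.1 ^^ j) * sg (par k p.2.2 x)) =
      sg (p.2.1 ^^ j) * (sg (t.a p.1 v) * ∑ x : Fin (4 ^ k), sg (par k p.2.2 x)) := by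
    intro j
    rw [Finset.mul_sum, Finset.mul_sum]
    refine Finset.sum_congr rfl fun x _ => ?_
    ring
  rw [Finset.sum_congr rfl fun j _ => h j, ← Finset.sum_mul, sum_sg_bool, zero_mul]

/-- The inner product of two rows. -/
theorem row_mul_row (t : Test P) (k : ℕ) (p p' : W P k) :
    ∑ q : W P k, sg ((prodTest t k).a p q) * sg ((prodTest t k).a p' q) =
      (∑ u : P, sg (t.a p.1 u) * sg (t.a p'.1 u)) *
        (2 * sg (p.2.1 ^^ p'.2.1) * (if p.2.2 = p'.2.2 then 4 ^ k else 0)) := by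
  rw [← gram_fin k, Fintype.sum_prod_type, Finset.sum_mul]
  refine Finset.sum_congr rfl fun u _ => ?_
  rw [Fintype.sum_prod_type]
  simp only [sg_prod]
  have h2 : ∀ j : Bool, ∑ x : Fin (4 ^ k), sg (t.a p.1 u) * (sg (p.2.1 ^^ j) * sg (par k p.2.2 x)) *
      (sg (t.a p'.1 u) * (sg (p'.2.1 ^^ j) * sg (par k p'.2.2 x))) =
      (sg (p.2.1 ^^ j) * sg (p'.2.1 ^^ j)) * (sg (t.a p.1 u) * sg (t.a p'.1 u) *
        ∑ x : Fin (4 ^ k), sg (par k p.2.2 x) * sg (par k p'.2.2 x)) := by
    intro j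
    rw [Finset.mul_sum, Finset.mul_sum]
    refine Finset.sum_congr rfl fun x _ => ?_
    ring
  rw [Finset.sum_congr rfl fun j _ => h2 j, ← Finset.sum_mul]
  have h3 : ∑ j : Bool, sg (p.2.1 ^^ j) * sg (p'.2.1 ^^ j) = 2 * sg (p.2.1 ^^ p'.2.1) := by
    cases p.2.1 <;> cases p'.2.1 <;> simp
  rw [h3]
  ring

/-! ### The product determines the graph -/

/-- Any two rows have a positive inner product. -/
def Pos (t : Test P) : Prop := ∀ v w : P, 0 < ∑ u : P, sg (t.a v u) * sg (t.a w u)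

theorem row_pos_iff {t : Test P} (ht : Pos t) (k : ℕ) (p p' : W P k) :
    0 < ∑ q : W P k, sg ((prodTest t k).a p q) * sg ((prodTest t k).a p' q) ↔
      p.2 = p'.2 := by
  rw [row_mul_row, Prod.ext_iff]
  have h1 := ht p.1 p'.1
  have h2 : (0 : ℤ) < 4 ^ k := by positivity
  constructor
  · intro h
    by_cases hx : p.2.2 = p'.2.2
    · refine ⟨?_, hx⟩
      rw [if_pos hx] at h
      by_contra hi
      have : (p.2.1 ^^ p'.2.1) = true := by
        revert hi
        cases p.2.1 <;> cases p'.2.1 <;> simp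
      rw [this, sg_true] at h
      nlinarith
    · rw [if_neg hx, mul_zero, mul_zero] at h
      exact absurd h (lt_irrefl 0)
  · rintro ⟨hi, hx⟩
    rw [if_pos hx, hi, Bool.xor_self, sg_false]
    positivity

theorem recover {P' : Type} [Fintype P'] [Nonempty P] {t : Test P} {t' : Test P'} (ht : Pos t)
    (ht' : Pos t') (k : ℕ) (φ : (prodTest t k).graph ≃g (prodTest t' k).graph) :
    Nonempty (t.graph ≃g t'.graph) := by
  have hS : ∀ p q : W P k, (prodTest t' k).a (φ p) (φ q) = (prodTest t k).a p q := by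
    intro p q
    rw [Bool.eq_iff_iff]
    exact φ.map_rel_iff
  have hrow : ∀ p p' : W P k,
      ∑ q : W P' k, sg ((prodTest t' k).a (φ p) q) * sg ((prodTest t' k).a (φ p') q) =
      ∑ q : W P k, sg ((prodTest t k).a p q) * sg ((prodTest t k).a p' q) := by
    intro p p'
    rw [← Equiv.sum_comp φ.toEquiv]
    refine Finset.sum_congr rfl fun q _ => ?_
    show sg ((prodTest t' k).a (φ p) (φ q)) * sg ((prodTest t' k).a (φ p') (φ q)) = _
    rw [hS, hS]
  have hfib : ∀ p p' : W P k, (φ p).2 = (φ p').2 ↔ p.2 = p'.2 := by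
    intro p p'
    rw [← row_pos_iff ht', ← row_pos_iff ht, hrow]
  obtain ⟨v0⟩ := ‹Nonempty P›
  have hk : 0 < 4 ^ k := by positivity
  set c : Bool × Fin (4 ^ k) := (false, ⟨0, hk⟩) with hc
  set d : Bool × Fin (4 ^ k) := (φ (v0, c)).2 with hd
  have h1 : ∀ v, φ (v, c) = ((φ (v, c)).1, d) := by
    intro v
    refine Prod.ext rfl ?_
    rw [hd]
    exact (hfib _ _).2 rfl
  have h2 : ∀ w, φ.symm (w, d) = ((φ.symm (w, d)).1, c) := by
    intro w
    refine Prod.ext rfl ?_
    have := (hfib (φ.symm (w, d)) (v0, c)).1 (by rw [φ.apply_symm_apply])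
    exact this
  refine ⟨⟨⟨fun v => (φ (v, c)).1, fun w => (φ.symm (w, d)).1, fun v => ?_, fun w => ?_⟩, ?_⟩⟩
  · show (φ.symm ((φ (v, c)).1, d)).1 = v
    rw [← h1, φ.symm_apply_apply]
  · show (φ ((φ.symm (w, d)).1, c)).1 = w
    rw [← h2, φ.apply_symm_apply]
  · intro v w
    show t'.a (φ (v, c)).1 (φ (w, c)).1 = true ↔ t.a v w = true
    have h3 := hS (v, c) (w, c)
    rw [h1 v, h1 w] at h3
    have e1 : (prodTest t' k).a ((φ (v, c)).1, d) ((φ (w, c)).1, d) =
        t'.a (φ (v, c)).1 (φ (w, c)).1 := by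
      show (t'.a (φ (v, c)).1 (φ (w, c)).1 ^^ ((d.1 ^^ d.1) ^^ par k d.2 d.2)) = _
      rw [par_self, Bool.xor_self, Bool.xor_false, Bool.xor_false]
    have e2 : (prodTest t k).a (v, c) (w, c) = t.a v w := by
      show (t.a v w ^^ ((c.1 ^^ c.1) ^^ par k c.2 c.2)) = _
      rw [par_self, Bool.xor_self, Bool.xor_false, Bool.xor_false]
    rw [e1, e2] at h3
    rw [h3]

/-- Isomorphic graphs have isomorphic products. -/
def prodIso {P' : Type} {t : Test P} {t' : Test P'} (k : ℕ) (φ : t.graph ≃g t'.graph) :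
    (prodTest t k).graph ≃g (prodTest t' k).graph where
  toEquiv := Equiv.prodCongr φ.toEquiv (Equiv.refl _)
  map_rel_iff' := by
    intro p q
    show (t'.a (φ p.1) (φ q.1) ^^ ((p.2.1 ^^ q.2.1) ^^ par k p.2.2 q.2.2)) = true ↔
      (t.a p.1 q.1 ^^ ((p.2.1 ^^ q.2.1) ^^ par k p.2.2 q.2.2)) = true
    have : t'.a (φ p.1) (φ q.1) = t.a p.1 q.1 := by
      rw [Bool.eq_iff_iff]
      exact φ.map_rel_iff
    rw [this]

/-! ### Regularity and eigenvalues -/

/-- The number of neighbours in the graph of a test, from the row sum. -/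
theorem two_mul_card_nbrs {V : Type} [Fintype V] (t : Test V) (v : V)
    (h : ∑ w : V, sg (t.a v w) = 0) :
    2 * (univ.filter fun w => t.a v w = true).card = Fintype.card V := by
  have h1 : ∀ w, sg (t.a v w) = 1 - 2 * (if t.a v w = true then 1 else 0) := by
    intro w
    cases t.a v w <;> simp
  simp only [h1] at h
  rw [Finset.sum_sub_distrib, ← Finset.mul_sum, Finset.sum_boole] at h
  simp at h
  have : (2 : ℤ) * ((univ.filter fun w => t.a v w = true).card : ℤ) = (Fintype.card V : ℤ) := by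
    linarith
  exact_mod_cast this

theorem parseval (k : ℕ) (h : Fin (4 ^ k) → ℝ) :
    ∑ x : Fin (4 ^ k), (∑ y : Fin (4 ^ k), (sg (par k x y) : ℝ) * h y) ^ 2 =
      4 ^ k * ∑ y : Fin (4 ^ k), h y ^ 2 := by
  have h1 : ∀ x : Fin (4 ^ k), (∑ y : Fin (4 ^ k), (sg (par k x y) : ℝ) * h y) ^ 2 =
      ∑ y : Fin (4 ^ k), ∑ z : Fin (4 ^ k),
        ((sg (par k y x) : ℝ) * (sg (par k z x) : ℝ)) * (h y * h z) := by
    intro x
    rw [sq, Finset.sum_mul_sum]
    refine Finset.sum_congr rfl fun y _ => Finset.sum_congr rfl fun z _ => ?_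
    rw [par_comm k x y, par_comm k x z]
    ring
  simp only [h1]
  rw [Finset.sum_comm]
  rw [Finset.mul_sum]
  refine Finset.sum_congr rfl fun y _ => ?_
  rw [Finset.sum_comm]
  have h2 : ∀ z : Fin (4 ^ k), ∑ x : Fin (4 ^ k),
      ((sg (par k y x) : ℝ) * (sg (par k z x) : ℝ)) * (h y * h z) =
      (if y = z then (4 : ℝ) ^ k else 0) * (h y * h z) := by
    intro z
    rw [← Finset.sum_mul]
    congr 1
    have := gram_fin k y z
    have h3 : ((∑ x : Fin (4 ^ k), sg (par k y x) * sg (par k z x) : ℤ) : ℝ) =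
        ((if y = z then 4 ^ k else 0 : ℤ) : ℝ) := by rw [this]
    push_cast at h3
    rw [h3]
  rw [Finset.sum_congr rfl fun z _ => h2 z]
  simp only [ite_mul, zero_mul, Finset.sum_ite_eq, Finset.mem_univ, if_true]
  ring

/-- The signs have a small norm. -/
theorem sign_norm (t : Test P) (k : ℕ) (f : W P k → ℝ) :
    ∑ p : W P k, (∑ q : W P k, (sg ((prodTest t k).a p q) : ℝ) * f q) ^ 2 ≤
      (2 * Fintype.card P) ^ 2 * 4 ^ k * ∑ q : W P k, f q ^ 2 := by
  have hP : ∀ F : W P k → ℝ, ∑ p : W P k, F p = ∑ vi : P × Bool, ∑ x : Fin (4 ^ k),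
      F (vi.1, vi.2, x) := by
    intro F
    rw [Fintype.sum_prod_type, Fintype.sum_prod_type]
    refine Finset.sum_congr rfl fun v _ => ?_
    rw [Fintype.sum_prod_type]
  have key : ∀ vi : P × Bool, ∑ x : Fin (4 ^ k),
      (∑ q : W P k, (sg ((prodTest t k).a (vi.1, vi.2, x) q) : ℝ) * f q) ^ 2 ≤
      4 ^ k * ((2 * Fintype.card P) * ∑ q : W P k, f q ^ 2) := by
    intro vi
    have h1 : ∀ x : Fin (4 ^ k),
        ∑ q : W P k, (sg ((prodTest t k).a (vi.1, vi.2, x) q) : ℝ) * f q =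
        ∑ y : Fin (4 ^ k), (sg (par k x y) : ℝ) *
          ∑ wj : P × Bool, ((sg (t.a vi.1 wj.1) : ℝ) * (sg (vi.2 ^^ wj.2) : ℝ)) * f (wj.1, wj.2, y) := by
      intro x
      rw [hP, Finset.sum_comm]
      refine Finset.sum_congr rfl fun y _ => ?_
      rw [Finset.mul_sum]
      refine Finset.sum_congr rfl fun wj _ => ?_
      rw [sg_prod]
      push_cast
      ring
    simp only [h1]
    rw [parseval]
    refine mul_le_mul_of_nonneg_left ?_ (by positivity)
    rw [hP, Finset.sum_comm, Finset.mul_sum]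
    refine Finset.sum_le_sum fun y _ => ?_
    refine (Finset.sum_mul_sq_le_sq_mul_sq univ
      (fun wj : P × Bool => ((sg (t.a vi.1 wj.1) : ℝ) * (sg (vi.2 ^^ wj.2) : ℝ)))
      (fun wj : P × Bool => f (wj.1, wj.2, y))).trans ?_
    refine mul_le_mul_of_nonneg_right ?_ (Finset.sum_nonneg fun _ _ => sq_nonneg _)
    have h2 : ∀ wj : P × Bool, ((sg (t.a vi.1 wj.1) : ℝ) * (sg (vi.2 ^^ wj.2) : ℝ)) ^ 2 = 1 := by
      intro wj
      cases t.a vi.1 wj.1 <;> cases (vi.2 ^^ wj.2) <;> simp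
    rw [Finset.sum_congr rfl fun wj _ => h2 wj]
    simp only [Finset.sum_const, Finset.card_univ, Fintype.card_prod, Fintype.card_bool,
      nsmul_eq_mul, mul_one]
    push_cast
    linarith
  calc ∑ p : W P k, (∑ q : W P k, (sg ((prodTest t k).a p q) : ℝ) * f q) ^ 2
      = ∑ vi : P × Bool, ∑ x : Fin (4 ^ k),
        (∑ q : W P k, (sg ((prodTest t k).a (vi.1, vi.2, x) q) : ℝ) * f q) ^ 2 := hP _
    _ ≤ ∑ vi : P × Bool, 4 ^ k * ((2 * Fintype.card P) * ∑ q : W P k, f q ^ 2) :=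
        Finset.sum_le_sum fun vi _ => key vi
    _ = (2 * Fintype.card P) ^ 2 * 4 ^ k * ∑ q : W P k, f q ^ 2 := by
        simp only [Finset.sum_const, Finset.card_univ, Fintype.card_prod, Fintype.card_bool,
          nsmul_eq_mul]
        push_cast
        ring

/-- The adjacency operator on the functions of sum zero. -/
theorem adj_norm (t : Test P) (k : ℕ) (f : W P k → ℝ) (hf : ∑ q, f q = 0) :
    ∑ p : W P k, (∑ q : W P k, (if (prodTest t k).a p q = true then f q else 0)) ^ 2 ≤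
      (Fintype.card P) ^ 2 * 4 ^ k * ∑ q : W P k, f q ^ 2 := by
  have h1 : ∀ p : W P k, ∑ q : W P k, (if (prodTest t k).a p q = true then f q else 0) =
      -(1 / 2) * ∑ q : W P k, (sg ((prodTest t k).a p q) : ℝ) * f q := by
    intro p
    have h2 : ∀ q : W P k, (if (prodTest t k).a p q = true then f q else 0) =
        (1 / 2) * f q + -(1 / 2) * ((sg ((prodTest t k).a p q) : ℝ) * f q) := by
      intro q
      cases (prodTest t k).a p q
      · simp
      · simp
        ring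
    rw [Finset.sum_congr rfl fun q _ => h2 q, Finset.sum_add_distrib, ← Finset.mul_sum,
      ← Finset.mul_sum, hf, mul_zero, zero_add]
  have h3 := sign_norm t k f
  simp only [h1, mul_pow]
  rw [← Finset.mul_sum]
  nlinarith

end Pool.Agent.H56.PR
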