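import Pool.Agent.H56.PR.Big

/-!
# Pseudorandom graphs
-/

set_option autoImplicit false

namespace Pool.Agent.H56.PR

open Finset

open Classical in
/-- `G` is regular of degree `|V| / 2`, and all eigenvalues of its adjacency matrix, except for the
trivial one, are at most `lam` in absolute value: the adjacency operator maps every function `f`
of sum zero to a function whose norm is at most `lam` times the norm of `f`. -/
def HalfExpander {V : Type} [Fintype V] (lam : ℝ) (G : SimpleGraph V) : Prop :=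
  (∀ v, 2 * (univ.filter fun w => G.Adj v w).card = Fintype.card V) ∧
  ∀ f : V → ℝ, ∑ v, f v = 0 →
    ∑ v, (∑ w, if G.Adj v w then f w else 0) ^ 2 ≤ lam ^ 2 * ∑ v, f v ^ 2

/-- `G` is regular of degree `N / 2`, where `N` is the number of vertices, and all eigenvalues
except for the trivial one are at most `N ^ (1 / 2 + ε)` in absolute value. -/
def Pseudorandom {V : Type} [Fintype V] (ε : ℝ) (G : SimpleGraph V) : Prop :=
  HalfExpander ((Fintype.card V : ℝ) ^ (1 / 2 + ε)) G

theorem HalfExpander.of_iso {V W : Type} [Fintype V] [Fintype W] {lam : ℝ} {G : SimpleGraph V}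
    {H : SimpleGraph W} (φ : G ≃g H) (h : HalfExpander lam H) : HalfExpander lam G := by
  classical
  obtain ⟨h1, h2⟩ := h
  refine ⟨fun v => ?_, fun f hf => ?_⟩
  · rw [Fintype.card_congr φ.toEquiv, ← h1 (φ v)]
    congr 1
    refine Finset.card_bij (fun w _ => φ w) ?_ ?_ ?_
    · intro w hw
      rw [mem_filter] at hw ⊢
      exact ⟨mem_univ _, φ.map_rel_iff.2 hw.2⟩
    · intro a _ b _ hab
      exact φ.injective hab
    · intro b hb
      rw [mem_filter] at hb
      refine ⟨φ.symm b, ?_, φ.apply_symm_apply b⟩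
      rw [mem_filter]
      refine ⟨mem_univ _, ?_⟩
      rw [← φ.map_rel_iff, φ.apply_symm_apply]
      exact hb.2
  · have h3 := h2 (fun w => f (φ.symm w)) (by
      rw [← hf]
      exact Equiv.sum_comp φ.symm.toEquiv f)
    have e1 : ∑ v, f (φ.symm v) ^ 2 = ∑ v, f v ^ 2 :=
      Equiv.sum_comp φ.symm.toEquiv (fun v => f v ^ 2)
    rw [e1] at h3
    refine le_trans (le_of_eq ?_) h3
    rw [← Equiv.sum_comp φ.toEquiv]
    refine Finset.sum_congr rfl fun v _ => ?_
    rw [← Equiv.sum_comp φ.toEquiv]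
    congr 1
    refine Finset.sum_congr rfl fun w _ => ?_
    show _ = if H.Adj (φ v) (φ w) then f (φ.symm (φ w)) else 0
    rw [φ.symm_apply_apply]
    refine if_congr ?_ rfl rfl
    exact φ.map_rel_iff.symm

theorem Pseudorandom.of_iso {V W : Type} [Fintype V] [Fintype W] {ε : ℝ} {G : SimpleGraph V}
    {H : SimpleGraph W} (φ : G ≃g H) (h : Pseudorandom ε H) : Pseudorandom ε G := by
  unfold Pseudorandom at h ⊢
  rw [Fintype.card_congr φ.toEquiv]
  exact HalfExpander.of_iso φ h

theorem HalfExpander.mono {V : Type} [Fintype V] {lam lam' : ℝ} {G : SimpleGraph V}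
    (h : HalfExpander lam G) (h0 : lam ^ 2 ≤ lam' ^ 2) : HalfExpander lam' G :=
  ⟨h.1, fun f hf => (h.2 f hf).trans (mul_le_mul_of_nonneg_right h0
    (Finset.sum_nonneg fun _ _ => sq_nonneg _))⟩

/-- The product is a regular graph with small eigenvalues. -/
theorem halfExpander_prod {P : Type} [Fintype P] (t : Test P) (k : ℕ) :
    HalfExpander ((Fintype.card P : ℝ) * 2 ^ k) (prodTest t k).graph := by
  classical
  refine ⟨fun v => ?_, fun f hf => ?_⟩
  · have := two_mul_card_nbrs (prodTest t k) v (row_sum t k v)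
    convert this
    exact Iff.rfl
  · have := adj_norm t k f hf
    have e : ((Fintype.card P : ℝ) * 2 ^ k) ^ 2 = (Fintype.card P) ^ 2 * 4 ^ k := by
      rw [mul_pow, ← pow_mul, mul_comm k 2, pow_mul]
      norm_num
    rw [e]
    convert this
    exact Iff.rfl

theorem card_W (P : Type) [Fintype P] (k : ℕ) :
    Fintype.card (W P k) = Fintype.card P * (2 * 4 ^ k) := by
  simp [Fintype.card_prod]

/-- If the exponent is large enough then the product is pseudorandom. -/
theorem pseudorandom_prod {P : Type} [Fintype P] (t : Test P) {c k : ℕ} {ε : ℝ} (hε : 0 < ε)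
    (hc : 1 / (4 * ε) ≤ c) (hP : 0 < Fintype.card P) (hk : Fintype.card P ^ c ≤ 2 ^ k) :
    Pseudorandom ε (prodTest t k).graph := by
  refine (halfExpander_prod t k).mono ?_
  have hN : Fintype.card (W P k) = Fintype.card P * (2 * 4 ^ k) := card_W P k
  set a : ℝ := (Fintype.card P : ℝ) with ha
  have ha1 : 1 ≤ a := by
    rw [ha]
    exact_mod_cast hP
  have hN' : ((Fintype.card (W P k) : ℕ) : ℝ) = a * (2 * 4 ^ k) := by
    rw [hN]
    push_cast
    rfl
  have hNpos : 0 < ((Fintype.card (W P k) : ℕ) : ℝ) := by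
    rw [hN']
    positivity
  have e1 : (((Fintype.card (W P k) : ℕ) : ℝ) ^ (1 / 2 + ε)) ^ 2 =
      ((Fintype.card (W P k) : ℕ) : ℝ) * ((Fintype.card (W P k) : ℕ) : ℝ) ^ (2 * ε) := by
    rw [← Real.rpow_natCast, ← Real.rpow_mul hNpos.le]
    rw [show (1 / 2 + ε) * ((2 : ℕ) : ℝ) = 1 + 2 * ε by push_cast; ring, Real.rpow_add hNpos,
      Real.rpow_one]
  rw [e1]
  have e2 : (a * 2 ^ k) ^ 2 = a * (a * 4 ^ k) := by
    rw [mul_pow, ← pow_mul, mul_comm k 2, pow_mul]
    norm_num
    ring
  rw [e2]
  -- `a ≤ N ^ (2 ε)`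
  have h1 : (a : ℝ) ^ (2 * c) ≤ ((Fintype.card (W P k) : ℕ) : ℝ) := by
    have h2 : a ^ c ≤ 2 ^ k := by
      rw [ha]
      exact_mod_cast hk
    have h3 : a ^ (2 * c) ≤ 4 ^ k := by
      calc a ^ (2 * c) = (a ^ c) ^ 2 := by rw [← pow_mul, mul_comm]
        _ ≤ (2 ^ k) ^ 2 := by
          refine pow_le_pow_left₀ (by positivity) h2 2
        _ = 4 ^ k := by
          rw [← pow_mul, mul_comm k 2, pow_mul]
          norm_num
    rw [hN']
    have h4 : (0 : ℝ) < 4 ^ k := by positivity
    nlinarith
  have h5 : a ≤ ((Fintype.card (W P k) : ℕ) : ℝ) ^ (2 * ε) := by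
    have h6 : 1 ≤ (c : ℝ) * (4 * ε) := by
      have := (div_le_iff₀ (by positivity)).1 hc
      linarith
    calc a = a ^ (1 : ℝ) := (Real.rpow_one a).symm
      _ ≤ a ^ ((c : ℝ) * (4 * ε)) := Real.rpow_le_rpow_of_exponent_le ha1 h6
      _ = (a ^ (2 * c)) ^ (2 * ε) := by
        rw [← Real.rpow_natCast, ← Real.rpow_mul (by linarith)]
        push_cast
        ring_nf
      _ ≤ _ := Real.rpow_le_rpow (by positivity) h1 (by positivity)
  have h7 : a * 4 ^ k ≤ ((Fintype.card (W P k) : ℕ) : ℝ) := by
    rw [hN']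
    have h4 : (0 : ℝ) < a * 4 ^ k := by positivity
    nlinarith
  calc a * (a * 4 ^ k) ≤ ((Fintype.card (W P k) : ℕ) : ℝ) ^ (2 * ε) *
        ((Fintype.card (W P k) : ℕ) : ℝ) := by
        refine mul_le_mul h5 h7 (by positivity) (by positivity)
    _ = _ := mul_comm _ _

/-! ### General facts on such graphs -/

/-- The eigenvalues cannot be smaller. -/
theorem HalfExpander.four_mul_sq_ge {V : Type} [Fintype V] [Nonempty V] {lam : ℝ}
    {G : SimpleGraph V} (h : HalfExpander lam G) : (Fintype.card V : ℝ) ≤ 4 * lam ^ 2 := by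
  classical
  set N : ℝ := (Fintype.card V : ℝ) with hN
  have hN0 : 0 < N := by
    rw [hN]
    exact_mod_cast Fintype.card_pos
  obtain ⟨h1, h2⟩ := h
  have hdeg : ∀ v, ∑ w, (if G.Adj v w then (1 : ℝ) else 0) = N / 2 := by
    intro v
    rw [Finset.sum_boole]
    have := h1 v
    have h3 : (2 : ℝ) * ((univ.filter fun w => G.Adj v w).card : ℝ) = N := by
      rw [hN]
      exact_mod_cast this
    linarith
  -- the test functions
  have h3 : ∀ u : V, ∑ v, ((if G.Adj v u then (1 : ℝ) else 0) - 1 / 2) ^ 2 ≤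
      lam ^ 2 * (1 - 1 / N) := by
    intro u
    have h4 := h2 (fun w => (if w = u then 1 else 0) - 1 / N) (by
      rw [Finset.sum_sub_distrib]
      simp only [Finset.sum_ite_eq', Finset.mem_univ, if_true, Finset.sum_const, Finset.card_univ,
        nsmul_eq_mul]
      rw [← hN]
      field_simp
      ring)
    have e1 : ∀ v, (∑ w, if G.Adj v w then ((if w = u then (1 : ℝ) else 0) - 1 / N) else 0) =
        (if G.Adj v u then (1 : ℝ) else 0) - 1 / 2 := by
      intro v
      have e2 : ∀ w, (if G.Adj v w then ((if w = u then (1 : ℝ) else 0) - 1 / N) else 0) =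
          (if w = u then (if G.Adj v w then (1 : ℝ) else 0) else 0) -
            (1 / N) * (if G.Adj v w then (1 : ℝ) else 0) := by
        intro w
        split_ifs <;> ring
      rw [Finset.sum_congr rfl fun w _ => e2 w, Finset.sum_sub_distrib, ← Finset.mul_sum, hdeg]
      simp only [Finset.sum_ite_eq', Finset.mem_univ, if_true]
      field_simp
    have e3 : ∑ w, ((if w = u then (1 : ℝ) else 0) - 1 / N) ^ 2 = 1 - 1 / N := by
      have e4 : ∀ w, ((if w = u then (1 : ℝ) else 0) - 1 / N) ^ 2 =
          (if w = u then (1 - 2 / N) else 0) + 1 / N ^ 2 := by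
        intro w
        split_ifs <;> ring
      rw [Finset.sum_congr rfl fun w _ => e4 w, Finset.sum_add_distrib]
      simp only [Finset.sum_ite_eq', Finset.mem_univ, if_true, Finset.sum_const, Finset.card_univ,
        nsmul_eq_mul]
      rw [← hN]
      field_simp
      ring
    rw [e3] at h4
    refine le_trans (le_of_eq ?_) h4
    exact Finset.sum_congr rfl fun v _ => by rw [e1 v]
  have h5 : ∀ u : V, ∑ v, ((if G.Adj v u then (1 : ℝ) else 0) - 1 / 2) ^ 2 = N / 4 := by
    intro u
    have e : ∀ v, ((if G.Adj v u then (1 : ℝ) else 0) - 1 / 2) ^ 2 = 1 / 4 := by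
      intro v
      split_ifs <;> norm_num
    rw [Finset.sum_congr rfl fun v _ => e v]
    simp only [Finset.sum_const, Finset.card_univ, nsmul_eq_mul]
    rw [← hN]
    ring
  obtain ⟨u⟩ := ‹Nonempty V›
  have h6 := h3 u
  rw [h5 u] at h6
  have h7 : lam ^ 2 * (1 - 1 / N) ≤ lam ^ 2 := by
    have : 0 ≤ 1 / N := by positivity
    nlinarith [sq_nonneg lam]
  linarith

open Classical in
/-- The number of pairs of adjacent vertices, one in `S` and the other in `T`. -/
noncomputable def edgePairs {V : Type} [Fintype V] (G : SimpleGraph V) (S T : Finset V) : ℕ :=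
  ((S ×ˢ T).filter fun p => G.Adj p.1 p.2).card

/-- The expander mixing lemma. -/
theorem HalfExpander.mixing {V : Type} [Fintype V] {lam : ℝ} (hlam : 0 ≤ lam)
    {G : SimpleGraph V} (h : HalfExpander lam G) (S T : Finset V) :
    |(edgePairs G S T : ℝ) - S.card * T.card / 2| ≤ lam * √(S.card * T.card) := by
  classical
  rcases isEmpty_or_nonempty V with hV | hV
  · have hS : S = ∅ := Finset.eq_empty_of_isEmpty S
    subst hS
    simp [edgePairs]
  set N : ℝ := (Fintype.card V : ℝ) with hN
  have hN0 : 0 < N := by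
    rw [hN]
    exact_mod_cast Fintype.card_pos
  obtain ⟨h1, h2⟩ := h
  have hdeg : ∀ v, ∑ w, (if G.Adj v w then (1 : ℝ) else 0) = N / 2 := by
    intro v
    rw [Finset.sum_boole]
    have := h1 v
    have h3 : (2 : ℝ) * ((univ.filter fun w => G.Adj v w).card : ℝ) = N := by
      rw [hN]
      exact_mod_cast this
    linarith
  set f : V → ℝ := fun w => (if w ∈ T then 1 else 0) - T.card / N with hf
  have hsum : ∑ w, (if w ∈ T then (1 : ℝ) else 0) = T.card := by
    rw [Finset.sum_boole]
    congr 1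
    congr 1
    ext x
    simp
  have hf0 : ∑ w, f w = 0 := by
    rw [hf, Finset.sum_sub_distrib, hsum]
    simp only [Finset.sum_const, Finset.card_univ, nsmul_eq_mul]
    rw [← hN]
    field_simp
    ring
  have hff : ∑ w, f w ^ 2 ≤ T.card := by
    have e : ∀ w, f w ^ 2 = (1 - 2 * (T.card / N)) * (if w ∈ T then (1 : ℝ) else 0) +
        (T.card / N) ^ 2 := by
      intro w
      simp only [hf]
      split_ifs <;> ring
    rw [Finset.sum_congr rfl fun w _ => e w, Finset.sum_add_distrib, ← Finset.mul_sum, hsum]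
    simp only [Finset.sum_const, Finset.card_univ, nsmul_eq_mul]
    rw [← hN]
    have h4 : N * ((T.card : ℝ) / N) ^ 2 = T.card * (T.card / N) := by
      field_simp
    rw [h4]
    have h5 : (0 : ℝ) ≤ T.card * (T.card / N) := by positivity
    nlinarith
  have h3 := h2 f hf0
  have e1 : ∀ v, (∑ w, if G.Adj v w then f w else 0) =
      (∑ w, if w ∈ T then (if G.Adj v w then (1 : ℝ) else 0) else 0) - T.card / 2 := by
    intro v
    have e2 : ∀ w, (if G.Adj v w then f w else 0) =
        (if w ∈ T then (if G.Adj v w then (1 : ℝ) else 0) else 0) -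
          (T.card / N) * (if G.Adj v w then (1 : ℝ) else 0) := by
      intro w
      simp only [hf]
      split_ifs <;> ring
    rw [Finset.sum_congr rfl fun w _ => e2 w, Finset.sum_sub_distrib, ← Finset.mul_sum, hdeg]
    field_simp
  have e3 : (edgePairs G S T : ℝ) - S.card * T.card / 2 =
      ∑ v ∈ S, (∑ w, if G.Adj v w then f w else 0) := by
    rw [Finset.sum_congr rfl fun v _ => e1 v, Finset.sum_sub_distrib]
    simp only [Finset.sum_const, nsmul_eq_mul]
    have e4 : (edgePairs G S T : ℝ) =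
        ∑ v ∈ S, ∑ w, if w ∈ T then (if G.Adj v w then (1 : ℝ) else 0) else 0 := by
      unfold edgePairs
      rw [Finset.card_filter, Finset.sum_product]
      push_cast
      refine Finset.sum_congr rfl fun v _ => ?_
      rw [Finset.sum_ite_mem, Finset.univ_inter]
    rw [e4]
    ring
  rw [e3]
  have h4 : (∑ v ∈ S, (∑ w, if G.Adj v w then f w else 0)) ^ 2 ≤
      (lam * √(S.card * T.card)) ^ 2 := by
    calc (∑ v ∈ S, (∑ w, if G.Adj v w then f w else 0)) ^ 2
        ≤ S.card * ∑ v ∈ S, (∑ w, if G.Adj v w then f w else 0) ^ 2 := sq_sum_le_card_mul_sum_sq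
      _ ≤ S.card * ∑ v, (∑ w, if G.Adj v w then f w else 0) ^ 2 := by
        refine mul_le_mul_of_nonneg_left ?_ (by positivity)
        exact Finset.sum_le_sum_of_subset_of_nonneg (Finset.subset_univ _)
          fun _ _ _ => sq_nonneg _
      _ ≤ S.card * (lam ^ 2 * ∑ w, f w ^ 2) := mul_le_mul_of_nonneg_left h3 (by positivity)
      _ ≤ S.card * (lam ^ 2 * T.card) := by
        refine mul_le_mul_of_nonneg_left ?_ (by positivity)
        exact mul_le_mul_of_nonneg_left hff (sq_nonneg _)
      _ = _ := by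
        rw [mul_pow, Real.sq_sqrt (by positivity)]
        ring
  exact abs_le_of_sq_le_sq h4 (by positivity)

end Pool.Agent.H56.PR
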