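import Pool.Agent.H56.PR.Red
import Pool.Agent.H56.PR.Ndl
import Pool.Graph.R_pool_sql_team_seeded_620a6dc7.H129.UB.WlMain

/-!
# The Weisfeiler-Leman method on pseudorandom graphs
-/

set_option autoImplicit false

namespace Pool.Agent.H56.PR

open Finset Pool.Agent.W185.SRG Pool.Agent.Y598.Circ

/-- A graph and isolated vertices. -/
def sumTest {X : Type} (t : Test X) (m : ℕ) : Test (X ⊕ Fin m) where
  a v w := Sum.elim (fun x => Sum.elim (fun y => t.a x y) (fun _ => false) w) (fun _ => false) v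
  symm v w := by
    rcases v with v | v <;> rcases w with w | w <;> simp [t.symm]
  irrefl v := by
    rcases v with v | v <;> simp [t.irrefl]

theorem pos_sumTest {X : Type} [Fintype X] (t : Test X) {m : ℕ} (h : Fintype.card X < m) :
    Pos (sumTest t m) := by
  intro v w
  rw [Fintype.sum_sum_type]
  have h1 : ∑ u : Fin m, sg ((sumTest t m).a v (Sum.inr u)) * sg ((sumTest t m).a w (Sum.inr u)) =
      m := by
    have e : ∀ u : Fin m, sg ((sumTest t m).a v (Sum.inr u)) *
        sg ((sumTest t m).a w (Sum.inr u)) = 1 := by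
      intro u
      rcases v with v | v <;> rcases w with w | w <;> rfl
    rw [Finset.sum_congr rfl fun u _ => e u]
    simp
  have h2 : -(Fintype.card X : ℤ) ≤
      ∑ u : X, sg ((sumTest t m).a v (Sum.inl u)) * sg ((sumTest t m).a w (Sum.inl u)) := by
    have e : ∀ u : X, (-1 : ℤ) ≤ sg ((sumTest t m).a v (Sum.inl u)) *
        sg ((sumTest t m).a w (Sum.inl u)) := by
      intro u
      cases (sumTest t m).a v (Sum.inl u) <;> cases (sumTest t m).a w (Sum.inl u) <;> simp
    calc -(Fintype.card X : ℤ) = ∑ _u : X, (-1 : ℤ) := by simp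
      _ ≤ _ := Finset.sum_le_sum fun u _ => e u
  rw [h1]
  omega

open Classical in
/-- The test of a graph. -/
noncomputable def testOf {X : Type} (G : SimpleGraph X) : Test X where
  a v w := decide (G.Adj v w)
  symm v w := by
    rw [Bool.eq_iff_iff, decide_eq_true_iff, decide_eq_true_iff]
    exact ⟨fun h => h.symm, fun h => h.symm⟩
  irrefl v := by
    rw [decide_eq_false_iff_not]
    exact G.irrefl

open Classical in
theorem testOf_graph {X : Type} (G : SimpleGraph X) : (testOf G).graph = G := by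
  ext v w
  rw [Test.graph_adj]
  exact decide_eq_true_iff

/-- Two vertices of the products which correspond to each other. -/
def Link {X X' : Type} {m κ : ℕ} (v : X) (v' : X') (p : W (X ⊕ Fin m) κ)
    (p' : W (X' ⊕ Fin m) κ) : Prop :=
  p.2 = p'.2 ∧ ((p.1 = Sum.inl v ∧ p'.1 = Sum.inl v') ∨ ∃ d, p.1 = Sum.inr d ∧ p'.1 = Sum.inr d)

/-- The game on products. -/
def prodGame {X X' : Type} [Fintype X] [Fintype X'] [Nonempty X] {t : Test X} {t' : Test X'}
    {k : ℕ} (A : Game k t.graph t'.graph) (m κ : ℕ) :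
    Game k (prodTest (sumTest t m) κ).graph (prodTest (sumTest t' m) κ).graph where
  Good n S S' := ∃ (T : Fin n → X) (T' : Fin n → X'), A.Good n T T' ∧
    ∀ i, Link (T i) (T' i) (S i) (S' i)
  zero S S' := ⟨Fin.elim0, Fin.elim0, A.zero _ _, fun i => i.elim0⟩
  ext n hn S S' := by
    rintro ⟨T, T', hgood, hS⟩
    obtain ⟨φ, hφ⟩ := A.ext n hn T T' hgood
    refine ⟨Equiv.prodCongr (Equiv.sumCongr φ (Equiv.refl _)) (Equiv.refl _), ?_⟩
    rintro ⟨v | d, c⟩
    · refine ⟨_, _, hφ v, ?_⟩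
      intro i
      refine Fin.lastCases ?_ (fun i => ?_) i
      · simp only [Fin.snoc_last]
        exact ⟨rfl, Or.inl ⟨rfl, rfl⟩⟩
      · simp only [Fin.snoc_castSucc]
        exact hS i
    · obtain ⟨x0⟩ := ‹Nonempty X›
      refine ⟨_, _, hφ x0, ?_⟩
      intro i
      refine Fin.lastCases ?_ (fun i => ?_) i
      · simp only [Fin.snoc_last]
        exact ⟨rfl, Or.inr ⟨d, rfl, rfl⟩⟩
      · simp only [Fin.snoc_castSucc]
        exact hS i
  restr n m' σ S S' := by
    rintro ⟨T, T', hgood, hS⟩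
    exact ⟨T ∘ σ, T' ∘ σ, A.restr n m' σ T T' hgood, fun i => hS (σ i)⟩
  iso S S' := by
    rintro ⟨T, T', hgood, hS⟩
    have h1 := A.iso T T' hgood
    have hpat : ∀ i j : Fin k, (T i = T j ↔ T' i = T' j) ∧
        (t.a (T i) (T j) = t'.a (T' i) (T' j)) := by
      intro i j
      have h2 := (Prod.ext_iff.1 h1).1
      have h3 := (Prod.ext_iff.1 h1).2
      refine ⟨iff_of_eq (congrFun (congrFun h2 i) j), ?_⟩
      rw [Bool.eq_iff_iff]
      exact iff_of_eq (congrFun (congrFun h3 i) j)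
    have heq : ∀ i j, (S i).1 = (S j).1 ↔ (S' i).1 = (S' j).1 := by
      intro i j
      rcases (hS i).2 with ⟨a1, a2⟩ | ⟨d, a1, a2⟩ <;> rcases (hS j).2 with ⟨b1, b2⟩ | ⟨e, b1, b2⟩
      · rw [a1, a2, b1, b2, Sum.inl.injEq, Sum.inl.injEq, (hpat i j).1]
      · rw [a1, a2, b1, b2]
        simp
      · rw [a1, a2, b1, b2]
        simp
      · rw [a1, a2, b1, b2, Sum.inr.injEq, Sum.inr.injEq]
    have hadj : ∀ i j, (sumTest t m).a (S i).1 (S j).1 = (sumTest t' m).a (S' i).1 (S' j).1 := by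
      intro i j
      rcases (hS i).2 with ⟨a1, a2⟩ | ⟨d, a1, a2⟩ <;> rcases (hS j).2 with ⟨b1, b2⟩ | ⟨e, b1, b2⟩
      · rw [a1, a2, b1, b2]
        exact (hpat i j).2
      · rw [a1, a2, b1, b2]
        rfl
      · rw [a1, a2, b1, b2]
        rfl
      · rw [a1, a2, b1, b2]
        rfl
    unfold isoType
    refine Prod.ext ?_ ?_
    · funext i j
      refine propext ?_
      show S i = S j ↔ S' i = S' j
      rw [Prod.ext_iff (x := S i), Prod.ext_iff (x := S' i), heq, (hS i).1, (hS j).1]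
    · funext i j
      refine propext ?_
      show ((sumTest t m).a (S i).1 (S j).1 ^^ (((S i).2.1 ^^ (S j).2.1) ^^
          par κ (S i).2.2 (S j).2.2)) = true ↔
        ((sumTest t' m).a (S' i).1 (S' j).1 ^^ (((S' i).2.1 ^^ (S' j).2.1) ^^
          par κ (S' i).2.2 (S' j).2.2)) = true
      rw [hadj, (hS i).1, (hS j).1]

end Pool.Agent.H56.PR

namespace Pool.Agent.NPC.PR56

open Finset Pool.Agent.H56.PR Pool.Agent.NPC.R671 Pool.Agent.W185.SRG Pool.Agent.Y598.Circ

/-- The two ways of adding isolated vertices. -/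
noncomputable def sumPadIso {X : Type} {n : ℕ} {t : Test X} {G : SimpleGraph (Fin n)}
    (φ : t.graph ≃g G) : (sumTest t (n + 1)).graph ≃g (padTest G).graph := by
  let e : Fin n ⊕ Fin (n + 1) ≃ Fin (2 * n + 1) := finSumFinEquiv.trans (finCongr (by ring))
  refine ⟨(Equiv.sumCongr φ.toEquiv (Equiv.refl _)).trans e, ?_⟩
  intro v w
  show (padTest G).graph.Adj (e (Sum.map φ id v)) (e (Sum.map φ id w)) ↔ _
  rw [padAdj_iff]
  constructor
  · rintro ⟨h1, h2, h⟩
    rcases v with a | a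
    · rcases w with b | b
      · have h3 : G.Adj (φ a) (φ b) := h
        exact φ.map_rel_iff.1 h3
      · have : ((e (Sum.map φ id (Sum.inr b)) : Fin (2 * n + 1)) : ℕ) = n + b := rfl
        omega
    · have : ((e (Sum.map φ id (Sum.inr a)) : Fin (2 * n + 1)) : ℕ) = n + a := rfl
      omega
  · intro h
    rcases v with a | a
    · rcases w with b | b
      · exact ⟨(φ a).2, (φ b).2, φ.map_rel_iff.2 h⟩
      · exact absurd h (by simp [Test.graph_adj, sumTest])
    · exact absurd h (by simp [Test.graph_adj, sumTest])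

/-- The Weisfeiler-Leman method does not identify pseudorandom graphs. -/
theorem wl_lower {ε : ℝ} (hε : 0 < ε) :
    ∃ C : ℕ, ∀ k : ℕ, 1 ≤ k → ∃ (V : Type) (_ : Fintype V) (P Q : SimpleGraph V),
      Pseudorandom ε P ∧ Pseudorandom ε Q ∧ IsEmpty (P ≃g Q) ∧ WLEquivalent k P Q ∧
      Fintype.card V ≤ C * k ^ C := by
  obtain ⟨c, hc⟩ := exists_nat_ge (1 / (4 * ε))
  refine ⟨(4000000 ^ (2 * c + 1) + 1) * (4 * c + 2) , fun k hk => ?_⟩
  obtain ⟨X, hX, P, Q, hne, ⟨A⟩, hxy, hcard⟩ := Pool.Agent.H129.UB.exists_base k hk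
  obtain ⟨x, -, -⟩ := hxy
  have hX' : Nonempty X := ⟨x⟩
  obtain ⟨n, hn⟩ : ∃ n, n = Fintype.card X := ⟨_, rfl⟩
  have e : X ≃ Fin n := (Fintype.equivFin X).trans (finCongr hn.symm)
  have hP := testOf_graph P
  have hQ := testOf_graph Q
  have hcP : Fintype.card (X ⊕ Fin (n + 1)) = 2 * n + 1 := by
    rw [Fintype.card_sum, Fintype.card_fin, ← hn]
    ring
  have hpow : (2 * n + 1) ^ c ≤ 2 ^ kk c n := by
    unfold kk
    rw [mul_comm c, pow_mul]
    exact Nat.pow_le_pow_left (Nat.lt_size_self _).le _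
  have hps : ∀ t : Test X, Pseudorandom ε (prodTest (sumTest t (n + 1)) (kk c n)).graph := by
    intro t
    refine pseudorandom_prod _ hε hc ?_ ?_
    · rw [hcP]
      omega
    · rw [hcP]
      exact hpow
  have A' : Game k (testOf P).graph (testOf Q).graph := by
    rw [hP, hQ]
    exact A
  refine ⟨W (X ⊕ Fin (n + 1)) (kk c n), inferInstance,
    (prodTest (sumTest (testOf P) (n + 1)) (kk c n)).graph,
    (prodTest (sumTest (testOf Q) (n + 1)) (kk c n)).graph, hps _, hps _, ⟨fun Φ => ?_⟩,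
    (prodGame A' (n + 1) (kk c n)).wlEquivalent, ?_⟩
  · have hlt : Fintype.card X < n + 1 := by omega
    obtain ⟨ψ⟩ := recover (pos_sumTest (testOf P) hlt) (pos_sumTest (testOf Q) hlt) (kk c n) Φ
    have i1 : (testOf P).graph ≃g (P.comap e.symm) := by
      rw [hP]
      exact (SimpleGraph.Iso.comap e.symm P).symm
    have i2 : (testOf Q).graph ≃g (Q.comap e.symm) := by
      rw [hQ]
      exact (SimpleGraph.Iso.comap e.symm Q).symm
    obtain ⟨χ⟩ := cancel (((sumPadIso i1).symm.trans ψ).trans (sumPadIso i2))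
    exact hne.false (((SimpleGraph.Iso.comap e.symm P).symm.trans χ).trans
      (SimpleGraph.Iso.comap e.symm Q))
  · rw [card_W, hcP]
    have h1 : Nat.log 2 k + 1 ≤ 2 * k := by
      have := Nat.log_le_self 2 k
      omega
    have h2 : n ≤ 419904 * (k * (2 * k)) := by
      rw [hn]
      refine hcard.trans ?_
      exact Nat.mul_le_mul_left _ (Nat.mul_le_mul_left _ h1)
    have h3 : 2 * (2 * n + 1) ≤ 4000000 * k ^ 2 := by
      have : 1 ≤ k ^ 2 := Nat.one_le_pow _ _ hk
      nlinarith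
    have h4 : 4 ^ kk c n ≤ (2 * (2 * n + 1)) ^ (2 * c) := pow_size_le c _ (by omega)
    calc (2 * n + 1) * (2 * 4 ^ kk c n) = (2 * (2 * n + 1)) * 4 ^ kk c n := by ring
      _ ≤ (2 * (2 * n + 1)) * (2 * (2 * n + 1)) ^ (2 * c) := Nat.mul_le_mul_left _ h4
      _ = (2 * (2 * n + 1)) ^ (2 * c + 1) := by rw [pow_succ, mul_comm]
      _ ≤ (4000000 * k ^ 2) ^ (2 * c + 1) := Nat.pow_le_pow_left h3 _
      _ = 4000000 ^ (2 * c + 1) * k ^ (4 * c + 2) := by
        rw [mul_pow, ← pow_mul]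
        ring_nf
      _ ≤ ((4000000 ^ (2 * c + 1) + 1) * (4 * c + 2)) *
          k ^ ((4000000 ^ (2 * c + 1) + 1) * (4 * c + 2)) := by
        refine Nat.mul_le_mul ?_ (Nat.pow_le_pow_right hk ?_)
        · calc 4000000 ^ (2 * c + 1) ≤ 4000000 ^ (2 * c + 1) + 1 := by omega
            _ ≤ _ := Nat.le_mul_of_pos_right _ (by omega)
        · exact Nat.le_mul_of_pos_left _ (Nat.succ_pos _)

end Pool.Agent.NPC.PR56
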