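import Pool.Agent.H56.PR.Wrap
import Pool.Agent.H56.PR.Wl

/-!
# Isomorphism of pseudorandom graphs
-/

set_option autoImplicit false

namespace Pool.Agent.NPC.PR56

open Pool.Agent.H56.PR Pool.Agent.NPC.R671 Pool.Agent.W185.SRG

theorem pseudorandom_TT {c : ℕ} {ε : ℝ} (hε : 0 < ε) (hc : 1 / (4 * ε) ≤ c) (n : ℕ)
    (G : SimpleGraph (Fin n)) : Pseudorandom ε (TT c n G) := by
  refine Pseudorandom.of_iso (TTiso c n G) (pseudorandom_prod _ hε hc ?_ ?_)
  · rw [Fintype.card_fin]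
    omega
  · rw [Fintype.card_fin]
    unfold kk
    rw [mul_comm c, pow_mul]
    exact Nat.pow_le_pow_left (Nat.lt_size_self _).le _

/-- Isomorphism of pseudorandom graphs is as hard as graph isomorphism. -/
theorem main {ε : ℝ} (hε : 0 < ε) :
    (∀ (N : ℕ) (G : SimpleGraph (Fin N)), 0 < N →
      (∀ lam : ℝ, HalfExpander lam G → (N : ℝ) ≤ 4 * lam ^ 2) ∧
      (Pseudorandom ε G → ∀ S T : Finset (Fin N),
        |(edgePairs G S T : ℝ) - S.card * T.card / 2| ≤
          (N : ℝ) ^ (1 / 2 + ε) * √(S.card * T.card))) ∧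
    (∃ (N : ℕ → ℕ) (T : ∀ n, SimpleGraph (Fin n) → SimpleGraph (Fin (N n)))
        (F : List Bool → List Bool), PolyTime F ∧
      (∀ n G, F (bits (adjMatrix G)) = bits (adjMatrix (T n G))) ∧
      (∀ n G, Pseudorandom ε (T n G)) ∧
      ∀ n m G H, Nonempty (T n G ≃g T m H) ↔ Nonempty (G ≃g H)) ∧
    ((∃ A : List Bool → List Bool, PolyTime A ∧
        ∀ (n m : ℕ) (G : SimpleGraph (Fin n)) (H : SimpleGraph (Fin m)),
          Pseudorandom ε G → Pseudorandom ε H →
          (A (bits (adjMatrix G, adjMatrix H)) = [true] ↔ Nonempty (G ≃g H))) ↔ InP GI) ∧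
    ((∀ L : Set (List Bool), InNP L → ∃ g : List Bool → List Bool, PolyTime g ∧
        ∀ x, ∃ (n m : ℕ) (G : SimpleGraph (Fin n)) (H : SimpleGraph (Fin m)),
          Pseudorandom ε G ∧ Pseudorandom ε H ∧ g x = bits (adjMatrix G, adjMatrix H) ∧
          (x ∈ L ↔ Nonempty (G ≃g H))) ↔ NPHard GI) := by
  obtain ⟨c, hc⟩ := exists_nat_ge (1 / (4 * ε))
  refine ⟨fun N G hN => ⟨fun lam h => ?_, fun h S T => ?_⟩, ?_⟩
  · have : Nonempty (Fin N) := ⟨⟨0, hN⟩⟩
    have h1 := h.four_mul_sq_ge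
    rwa [Fintype.card_fin] at h1
  · have h1 := HalfExpander.mixing (by positivity) h S T
    rwa [Fintype.card_fin] at h1
  · exact giComplete (fun _ G => Pseudorandom ε G) (poly_red c) (fun n G => red_adjMatrix c G)
      (fun n m G H => TT_iso_iff c G H) (fun n G => pseudorandom_TT hε hc n G)

end Pool.Agent.NPC.PR56
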