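import Pool.Agent.H56.PR.Big
import Pool.Graph.R_pool_sql_team_seeded_620a6dc7.H129.UB.Red

/-!
# Padding by isolated vertices
-/

set_option autoImplicit false

namespace Pool.Agent.NPC.PR56

open Finset Pool.Agent.H56.PR Pool.Agent.NPC.R671
open Pool.Agent.NPC.UB129 (Mat ent ent_adjMatrix length_adjMatrix valid valid_iff upoly_len poly_ent poly_valid)

theorem ent_lt {n : ℕ} (G : SimpleGraph (Fin n)) {i j : ℕ} (h : ent (adjMatrix G) i j = true) :
    i < n ∧ j < n := by
  classical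
  have hi : i < n := by
    by_contra hi
    have h1 : (adjMatrix G).getD i [] = [] :=
      List.getD_eq_default _ _ (by rw [length_adjMatrix]; omega)
    unfold ent at h
    rw [h1] at h
    simp at h
  refine ⟨hi, ?_⟩
  by_contra hj
  have h1 : (adjMatrix G).getD i [] = List.ofFn fun j => decide (G.Adj ⟨i, hi⟩ j) := by
    unfold adjMatrix
    rw [List.getD_eq_getElem _ _ (by simpa using hi)]
    simp
  unfold ent at h
  rw [h1, List.getD_eq_default _ _ (by simp; omega)] at h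
  simp at h

/-- The graph `G` with `n + 1` further isolated vertices. -/
noncomputable def padTest {n : ℕ} (G : SimpleGraph (Fin n)) : Test (Fin (2 * n + 1)) where
  a v w := ent (adjMatrix G) v w
  symm v w := by
    rw [Bool.eq_iff_iff]
    constructor
    · intro h
      obtain ⟨h1, h2⟩ := ent_lt G h
      have h3 := (ent_adjMatrix G ⟨v, h1⟩ ⟨w, h2⟩).1 h
      exact (ent_adjMatrix G ⟨w, h2⟩ ⟨v, h1⟩).2 h3.symm
    · intro h
      obtain ⟨h1, h2⟩ := ent_lt G h
      have h3 := (ent_adjMatrix G ⟨w, h1⟩ ⟨v, h2⟩).1 h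
      exact (ent_adjMatrix G ⟨v, h2⟩ ⟨w, h1⟩).2 h3.symm
  irrefl v := by
    rw [Bool.eq_false_iff]
    intro h
    obtain ⟨h1, h2⟩ := ent_lt G h
    exact ((ent_adjMatrix G ⟨v, h1⟩ ⟨v, h1⟩).1 h).ne rfl

theorem pos_padTest {n : ℕ} (G : SimpleGraph (Fin n)) : Pos (padTest G) := by
  intro v w
  have h1 : ∀ u : Fin (2 * n + 1), (if (u : ℕ) < n then (-1 : ℤ) else 1) ≤
      sg ((padTest G).a v u) * sg ((padTest G).a w u) := by
    intro u
    split_ifs with hu
    · cases (padTest G).a v u <;> cases (padTest G).a w u <;> simp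
    · have e1 : (padTest G).a v u = false := by
        rw [Bool.eq_false_iff]
        intro h
        exact hu (ent_lt G h).2
      have e2 : (padTest G).a w u = false := by
        rw [Bool.eq_false_iff]
        intro h
        exact hu (ent_lt G h).2
      rw [e1, e2]
      simp
  refine lt_of_lt_of_le ?_ (Finset.sum_le_sum fun u _ => h1 u)
  rw [Fin.sum_univ_eq_sum_range (fun u : ℕ => if u < n then (-1 : ℤ) else 1) (2 * n + 1),
    show 2 * n + 1 = n + (n + 1) by ring, Finset.sum_range_add]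
  have e1 : ∑ x ∈ range n, (if x < n then (-1 : ℤ) else 1) = -n := by
    rw [Finset.sum_congr rfl fun x hx => if_pos (Finset.mem_range.1 hx)]
    simp
  have e2 : ∑ x ∈ range (n + 1), (if n + x < n then (-1 : ℤ) else 1) = n + 1 := by
    rw [Finset.sum_congr rfl fun x _ => if_neg (by omega)]
    simp
  rw [e1, e2]
  omega

theorem padAdj_iff {n : ℕ} (G : SimpleGraph (Fin n)) (v w : Fin (2 * n + 1)) :
    (padTest G).graph.Adj v w ↔ ∃ (h1 : (v : ℕ) < n) (h2 : (w : ℕ) < n), G.Adj ⟨v, h1⟩ ⟨w, h2⟩ := by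
  constructor
  · intro h
    obtain ⟨h1, h2⟩ := ent_lt G h
    exact ⟨h1, h2, (ent_adjMatrix G ⟨v, h1⟩ ⟨w, h2⟩).1 h⟩
  · rintro ⟨h1, h2, h⟩
    exact (ent_adjMatrix G ⟨v, h1⟩ ⟨w, h2⟩).2 h

/-- A vertex of `G` as a vertex of the padded graph. -/
def up {n : ℕ} (v : Fin n) : Fin (2 * n + 1) := ⟨v, by omega⟩

theorem up_adj {n : ℕ} (G : SimpleGraph (Fin n)) (v w : Fin n) :
    (padTest G).graph.Adj (up v) (up w) ↔ G.Adj v w := by
  rw [padAdj_iff]
  constructor
  · rintro ⟨_, _, h⟩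
    exact h
  · intro h
    exact ⟨v.2, w.2, h⟩

/-- The vertex `v` of the padded graph is not isolated. -/
theorem exists_up {n : ℕ} {G : SimpleGraph (Fin n)} {v w : Fin (2 * n + 1)}
    (h : (padTest G).graph.Adj v w) : ∃ a b : Fin n, up a = v ∧ up b = w ∧ G.Adj a b := by
  rw [padAdj_iff] at h
  obtain ⟨h1, h2, h⟩ := h
  exact ⟨⟨v, h1⟩, ⟨w, h2⟩, rfl, rfl, h⟩

theorem up_injective {n : ℕ} {a b : Fin n} (h : up a = up b) : a = b := by
  rw [up, up, Fin.mk.injEq] at h
  exact Fin.ext h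

/-- Isolated vertices can be cancelled. -/
theorem cancel {n : ℕ} {G H : SimpleGraph (Fin n)}
    (φ : (padTest G).graph ≃g (padTest H).graph) : Nonempty (G ≃g H) := by
  classical
  have h1 : ∀ a b : Fin n, G.Adj a b → ∃ c : Fin n, up c = φ (up a) := by
    intro a b hab
    have h := φ.map_rel_iff.2 ((up_adj G a b).2 hab)
    obtain ⟨c, _, hc, _, _⟩ := exists_up h
    exact ⟨c, hc⟩
  have h2 : ∀ a b : Fin n, H.Adj a b → ∃ c : Fin n, up c = φ.symm (up a) := by
    intro a b hab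
    have h := φ.symm.map_rel_iff.2 ((up_adj H a b).2 hab)
    obtain ⟨c, _, hc, _, _⟩ := exists_up h
    exact ⟨c, hc⟩
  have hG : ∀ x : {a : Fin n // ∃ b, G.Adj a b}, ∃ y : {a : Fin n // ∃ b, H.Adj a b},
      up y.1 = φ (up x.1) := by
    rintro ⟨a, b, hab⟩
    have h := φ.map_rel_iff.2 ((up_adj G a b).2 hab)
    obtain ⟨c, d, hc, _, hcd⟩ := exists_up h
    exact ⟨⟨c, d, hcd⟩, hc⟩
  have hH : ∀ x : {a : Fin n // ∃ b, H.Adj a b}, ∃ y : {a : Fin n // ∃ b, G.Adj a b},
      up y.1 = φ.symm (up x.1) := by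
    rintro ⟨a, b, hab⟩
    have h := φ.symm.map_rel_iff.2 ((up_adj H a b).2 hab)
    obtain ⟨c, d, hc, _, hcd⟩ := exists_up h
    exact ⟨⟨c, d, hcd⟩, hc⟩
  choose F hF using hG
  choose F' hF' using hH
  let e : {a : Fin n // ∃ b, G.Adj a b} ≃ {a : Fin n // ∃ b, H.Adj a b} :=
    ⟨F, F', fun x => by
      refine Subtype.ext (up_injective ?_)
      rw [hF', hF, φ.symm_apply_apply], fun x => by
      refine Subtype.ext (up_injective ?_)
      rw [hF, hF', φ.apply_symm_apply]⟩
  have he : ∀ x, up (e x).1 = φ (up x.1) := hF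
  refine ⟨⟨e.extendSubtype, ?_⟩⟩
  intro a b
  by_cases ha : ∃ c, G.Adj a c
  · by_cases hb : ∃ c, G.Adj b c
    · rw [e.extendSubtype_apply_of_mem a ha, e.extendSubtype_apply_of_mem b hb, ← up_adj, he, he,
        φ.map_rel_iff, up_adj]
    · have h3 := e.extendSubtype_not_mem b hb
      constructor
      · intro h
        exact absurd ⟨_, h.symm⟩ h3
      · intro h
        exact absurd ⟨_, h.symm⟩ hb
  · have h3 := e.extendSubtype_not_mem a ha
    constructor
    · intro h
      exact absurd ⟨_, h⟩ h3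
    · intro h
      exact absurd ⟨_, h⟩ ha

/-- The padded graphs of isomorphic graphs are isomorphic. -/
def padIso {n : ℕ} {G H : SimpleGraph (Fin n)} (φ : G ≃g H) :
    (padTest G).graph ≃g (padTest H).graph := by
  let e : Fin n ⊕ Fin (n + 1) ≃ Fin (2 * n + 1) := finSumFinEquiv.trans (finCongr (by ring))
  refine ⟨(e.symm.trans (Equiv.sumCongr φ.toEquiv (Equiv.refl _))).trans e, ?_⟩
  have key : ∀ x : Fin n ⊕ Fin (n + 1), ∀ y : Fin n ⊕ Fin (n + 1), ∀ K : SimpleGraph (Fin n),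
      (padTest K).graph.Adj (e x) (e y) ↔ ∃ a b, x = Sum.inl a ∧ y = Sum.inl b ∧ K.Adj a b := by
    intro x y K
    rw [padAdj_iff]
    constructor
    · rintro ⟨h1, h2, h⟩
      rcases x with a | a
      · rcases y with b | b
        · exact ⟨a, b, rfl, rfl, h⟩
        · have : ((e (Sum.inr b) : Fin (2 * n + 1)) : ℕ) = n + b := rfl
          omega
      · have : ((e (Sum.inr a) : Fin (2 * n + 1)) : ℕ) = n + a := rfl
        omega
    · rintro ⟨a, b, rfl, rfl, h⟩
      exact ⟨a.2, b.2, h⟩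
  intro v w
  obtain ⟨x, rfl⟩ := e.surjective v
  obtain ⟨y, rfl⟩ := e.surjective w
  show (padTest H).graph.Adj (e (Sum.map φ id (e.symm (e x)))) (e (Sum.map φ id (e.symm (e y)))) ↔ _
  rw [e.symm_apply_apply, e.symm_apply_apply, key, key]
  constructor
  · rintro ⟨a, b, h1, h2, h⟩
    rcases x with x | x
    · rcases y with y | y
      · simp only [Sum.map_inl, Sum.inl.injEq] at h1 h2
        subst h1
        subst h2
        exact ⟨x, y, rfl, rfl, φ.map_rel_iff.1 h⟩
      · simp at h2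
    · simp at h1
  · rintro ⟨a, b, rfl, rfl, h⟩
    exact ⟨φ a, φ b, rfl, rfl, φ.map_rel_iff.2 h⟩

end Pool.Agent.NPC.PR56
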