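import Pool.Agent.H56.PR.Pad

/-!
# The construction on adjacency matrices
-/

set_option autoImplicit false

namespace Pool.Agent.NPC.PR56

open Finset Pool.Agent.H56.PR Pool.Agent.NPC.R671
open Pool.Agent.NPC.UB129 (Mat ent ent_adjMatrix length_adjMatrix valid valid_iff upoly_len poly_ent poly_valid)

/-- The exponent. -/
def kk (c n : ℕ) : ℕ := c * (2 * n + 1).size

/-- The number of vertices of the product. -/
def size (c n : ℕ) : ℕ := (2 * n + 1) * (2 * 4 ^ kk c n)

/-- The numbering of the vertices of the product. -/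
def dec (c n : ℕ) : Fin (size c n) ≃ W (Fin (2 * n + 1)) (kk c n) :=
  finProdFinEquiv.symm.trans (Equiv.prodCongr (Equiv.refl _)
    (finProdFinEquiv.symm.trans (Equiv.prodCongr finTwoEquiv (Equiv.refl _))))

/-- The construction, as a graph on `{0, ..., size c n - 1}`. -/
noncomputable def TT (c n : ℕ) (G : SimpleGraph (Fin n)) : SimpleGraph (Fin (size c n)) :=
  (prodTest (padTest G) (kk c n)).graph.comap (dec c n)

/-- The numbering is an isomorphism. -/
noncomputable def TTiso (c n : ℕ) (G : SimpleGraph (Fin n)) :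
    TT c n G ≃g (prodTest (padTest G) (kk c n)).graph :=
  SimpleGraph.Iso.comap (dec c n) _

theorem size_mono {c m n : ℕ} (h : m < n) : size c m < size c n := by
  unfold size kk
  have h1 : c * (2 * m + 1).size ≤ c * (2 * n + 1).size :=
    Nat.mul_le_mul_left _ (Nat.size_le_size (by omega))
  have h2 : 4 ^ (c * (2 * m + 1).size) ≤ 4 ^ (c * (2 * n + 1).size) :=
    Nat.pow_le_pow_right (by norm_num) h1
  have h3 : 0 < 4 ^ (c * (2 * m + 1).size) := by positivity
  calc (2 * m + 1) * (2 * 4 ^ (c * (2 * m + 1).size))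
      < (2 * n + 1) * (2 * 4 ^ (c * (2 * m + 1).size)) :=
        Nat.mul_lt_mul_of_pos_right (by omega) (by omega)
    _ ≤ _ := Nat.mul_le_mul_left _ (by omega)

theorem size_inj {c m n : ℕ} (h : size c m = size c n) : m = n := by
  rcases lt_trichotomy m n with h1 | h1 | h1
  · exact absurd h (size_mono h1).ne
  · exact h1
  · exact absurd h (size_mono h1).ne'

/-- The products are isomorphic if and only if the graphs are. -/
theorem TT_iso_iff (c : ℕ) {n m : ℕ} (G : SimpleGraph (Fin n)) (H : SimpleGraph (Fin m)) :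
    Nonempty (TT c n G ≃g TT c m H) ↔ Nonempty (G ≃g H) := by
  constructor
  · rintro ⟨φ⟩
    have h1 : size c n = size c m := by
      have := Fintype.card_congr φ.toEquiv
      simpa using this
    have h2 := size_inj h1
    subst h2
    obtain ⟨ψ⟩ := recover (pos_padTest G) (pos_padTest H) (kk c n)
      (((TTiso c n G).symm.trans φ).trans (TTiso c n H))
    exact cancel ψ
  · rintro ⟨φ⟩
    have h1 : n = m := by
      have := Fintype.card_congr φ.toEquiv
      simpa using this
    subst h1
    exact ⟨((TTiso c n G).trans (prodIso _ (padIso φ))).trans (TTiso c n H).symm⟩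

/-! ### Matrices -/

/-- The test for adjacency. -/
def adjB (K q : ℕ) (M : Mat) (s t : ℕ) : Bool :=
  ent M (s / (2 * q)) (t / (2 * q)) ^^
    ((decide (s % (2 * q) / q = 1) ^^ decide (t % (2 * q) / q = 1)) ^^
      par K (s % (2 * q) % q) (t % (2 * q) % q))

theorem finTwoEquiv_apply (i : Fin 2) : finTwoEquiv i = decide ((i : ℕ) = 1) := by
  fin_cases i <;> rfl

theorem adjB_eq {c n : ℕ} (G : SimpleGraph (Fin n)) (s t : Fin (size c n)) :
    adjB (kk c n) (4 ^ kk c n) (adjMatrix G) s t =
      (prodTest (padTest G) (kk c n)).a (dec c n s) (dec c n t) := by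
  show _ = (ent (adjMatrix G) (s / (2 * 4 ^ kk c n)) (t / (2 * 4 ^ kk c n)) ^^
    ((finTwoEquiv _ ^^ finTwoEquiv _) ^^
      par (kk c n) (s % (2 * 4 ^ kk c n) % 4 ^ kk c n) (t % (2 * 4 ^ kk c n) % 4 ^ kk c n)))
  rw [finTwoEquiv_apply, finTwoEquiv_apply]
  rfl

/-- The adjacency matrix of the product. -/
def red (c : ℕ) (M : Mat) : Mat :=
  (List.range (size c M.length)).map fun s => (List.range (size c M.length)).map fun t =>
    adjB (kk c M.length) (4 ^ kk c M.length) M s t

theorem red_adjMatrix (c : ℕ) {n : ℕ} (G : SimpleGraph (Fin n)) :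
    red c (adjMatrix G) = adjMatrix (TT c n G) := by
  classical
  unfold red
  rw [length_adjMatrix]
  conv_rhs => unfold adjMatrix
  refine List.ext_getElem (by simp) fun i h1 h2 => ?_
  rw [List.getElem_map, List.getElem_ofFn, List.getElem_range]
  refine List.ext_getElem (by simp) fun j h3 h4 => ?_
  rw [List.getElem_map, List.getElem_ofFn, List.getElem_range]
  have hi : i < size c n := by simpa using h1
  have hj : j < size c n := by simpa using h3
  refine Bool.eq_iff_iff.2 (Iff.trans ?_ (@decide_eq_true_iff _ (_)).symm)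
  have := adjB_eq (c := c) G ⟨i, hi⟩ ⟨j, hj⟩
  rw [this]
  exact Iff.rfl

/-! ### Polynomial time -/

/-- One step of the computation of `par`. -/
def parStep (s : ℕ × ℕ × Bool) : ℕ × ℕ × Bool :=
  (s.1 / 4, s.2.1 / 4, s.2.2 ^^ decide (s.1 % 4 + s.2.1 % 4 = 3))

theorem parStep_iterate : ∀ (k x y : ℕ) (b : Bool),
    parStep^[k] (x, y, b) = (x / 4 ^ k, y / 4 ^ k, b ^^ par k x y)
  | 0, x, y, b => by simp [par]
  | k + 1, x, y, b => by
    rw [Function.iterate_succ, Function.comp_apply]
    show parStep^[k] (x / 4, y / 4, b ^^ decide (x % 4 + y % 4 = 3)) = _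
    rw [parStep_iterate k, Nat.div_div_eq_div_mul, Nat.div_div_eq_div_mul, par, pow_succ,
      mul_comm (4 ^ k) 4, Bool.xor_assoc]

theorem poly_par : Poly (fun p : List Unit × ℕ × ℕ => par p.1.length p.2.1 p.2.2) := by
  have h : Poly (fun p : List Unit × ℕ × ℕ => parStep^[p.1.length] (p.2.1, p.2.2, false)) := by
    refine Poly.iterLen (l := fun p : List Unit × ℕ × ℕ => p.1)
      (s := fun p : List Unit × ℕ × ℕ => (p.2.1, p.2.2, false))
      (F := fun _ s => parStep s) (Poly.fst Poly.id) ?_ ?_
      (Polynomial.C 4 * Polynomial.X + Polynomial.C 5) ?_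
    · fun_prop
    · unfold parStep
      fun_prop
    · intro a j _
      rw [parStep_iterate]
      have h1 : sz (a.2.1 / 4 ^ j) ≤ 2 * sz a.2.1 := sz_nat_mono_le (Nat.div_le_self _ _)
      have h2 : sz (a.2.2 / 4 ^ j) ≤ 2 * sz a.2.2 := sz_nat_mono_le (Nat.div_le_self _ _)
      have h3 := sz_bool_le (false ^^ par j a.2.1 a.2.2)
      have h4 : sz a = sz a.1 + sz (a.2.1, a.2.2) + 1 := sz_pair a.1 a.2
      have h5 : sz (a.2.1, a.2.2) = sz a.2.1 + sz a.2.2 + 1 := sz_pair _ _
      simp only [sz_pair, Polynomial.eval_add, Polynomial.eval_mul, Polynomial.eval_C,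
        Polynomial.eval_X] at h4 h5 ⊢
      omega
  refine (Poly.snd (Poly.snd h)).congr fun p => ?_
  rw [parStep_iterate]
  simp

theorem pow_size_le (c x : ℕ) (hx : 0 < x) : 4 ^ (c * x.size) ≤ (2 * x) ^ (2 * c) := by
  have h1 : 2 ^ x.size ≤ 2 * x := by
    have h2 : 0 < x.size := Nat.size_pos.2 hx
    obtain ⟨s, hs⟩ : ∃ s, x.size = s + 1 := ⟨x.size - 1, by omega⟩
    rw [hs, pow_succ, mul_comm]
    refine Nat.mul_le_mul_left _ ?_
    by_contra h
    have h3 := Nat.size_le.2 (not_le.1 h)
    omega
  calc 4 ^ (c * x.size) = (2 ^ x.size) ^ (2 * c) := by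
        rw [show (4 : ℕ) = 2 ^ 2 by norm_num, ← pow_mul, ← pow_mul]
        ring_nf
    _ ≤ _ := Nat.pow_le_pow_left h1 _

theorem upoly_kk (c : ℕ) : UPoly (fun M : Mat => kk c M.length) := by
  unfold kk
  refine (UPoly.const c).mul ?_
  have h1 : Poly (fun M : Mat => 2 * M.length + 1) := by fun_prop
  have h2 : UPoly (fun M : Mat => (2 * M.length + 1).bits.length) := UPoly.length h1.natBits
  refine h2.congr fun M => ?_
  show List.replicate (2 * M.length + 1).bits.length () = List.replicate (2 * M.length + 1).size ()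
  rw [Nat.size_eq_bits_len]

theorem upoly_pow (c : ℕ) : UPoly (fun M : Mat => 4 ^ kk c M.length) := by
  have hb : UPoly (fun M : Mat => (2 * (2 * M.length + 1)) ^ (2 * c)) := by
    have h1 : UPoly (fun M : Mat => 2 * (2 * M.length + 1)) :=
      (UPoly.const 2).mul (((UPoly.const 2).mul upoly_len).add (UPoly.const 1))
    simpa using UPoly.eval h1 (Polynomial.X ^ (2 * c))
  obtain ⟨r, hr⟩ := Poly.sz_le hb.toPoly
  have hle : ∀ M : Mat, 4 ^ kk c M.length ≤ (2 * (2 * M.length + 1)) ^ (2 * c) := fun M =>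
    pow_size_le c _ (by omega)
  refine UPoly.of_le ?_ hb hle
  have h : Poly (fun M : Mat => (fun x : ℕ => x * 4)^[(List.replicate (kk c M.length) ()).length]
      1) := by
    refine Poly.iterLen (l := fun M : Mat => List.replicate (kk c M.length) ())
      (s := fun _ => 1) (F := fun _ x => x * 4) (upoly_kk c) (Poly.const 1) (by fun_prop)
      (Polynomial.C 2 * r) ?_
    intro M j hj
    rw [List.length_replicate] at hj
    have e : ∀ j : ℕ, (fun x : ℕ => x * 4)^[j] 1 = 4 ^ j := by
      intro j
      induction j with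
      | zero => rfl
      | succ j ih => rw [Function.iterate_succ_apply', ih, pow_succ]
    rw [e]
    have h1 : 4 ^ j ≤ (2 * (2 * M.length + 1)) ^ (2 * c) :=
      (Nat.pow_le_pow_right (by norm_num) hj).trans (hle M)
    have h2 := sz_nat_mono_le h1
    have h3 := hr M
    simp only [Polynomial.eval_mul, Polynomial.eval_C]
    omega
  refine h.congr fun M => ?_
  rw [List.length_replicate]
  generalize kk c M.length = j
  induction j with
  | zero => rfl
  | succ j ih => rw [Function.iterate_succ_apply', ih, pow_succ]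

theorem upoly_size (c : ℕ) : UPoly (fun M : Mat => size c M.length) := by
  unfold size
  exact (((UPoly.const 2).mul upoly_len).add (UPoly.const 1)).mul
    ((UPoly.const 2).mul (upoly_pow c))

theorem poly_adjB : Poly (fun p : (List Unit × ℕ × Mat) × ℕ × ℕ =>
    adjB p.1.1.length p.1.2.1 p.1.2.2 p.2.1 p.2.2) := by
  unfold adjB
  refine Poly.xor ?_ (Poly.xor (by fun_prop) ?_)
  · exact poly_ent.comp (f := fun p : (List Unit × ℕ × Mat) × ℕ × ℕ =>
      (p.1.2.2, p.2.1 / (2 * p.1.2.1), p.2.2 / (2 * p.1.2.1))) (by fun_prop)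
  · exact poly_par.comp (f := fun p : (List Unit × ℕ × Mat) × ℕ × ℕ =>
      (p.1.1, p.2.1 % (2 * p.1.2.1) % p.1.2.1, p.2.2 % (2 * p.1.2.1) % p.1.2.1)) (by fun_prop)

theorem poly_red (c : ℕ) : Poly (red c) := by
  have h1 : Poly (fun M : Mat => List.range (size c M.length)) := (upoly_size c).range
  have h2 : Poly (fun M : Mat => 4 ^ kk c M.length) := (upoly_pow c).toPoly
  have h3 : Poly (fun M : Mat => List.replicate (kk c M.length) ()) := upoly_kk c
  have h : Poly (fun M : Mat => (List.range (size c M.length)).map fun s =>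
      (List.range (size c M.length)).map fun t =>
      adjB (List.replicate (kk c M.length) ()).length (4 ^ kk c M.length) M s t) := by
    refine Poly.map (F := fun (M : Mat) s => (List.range (size c M.length)).map fun t =>
      adjB (List.replicate (kk c M.length) ()).length (4 ^ kk c M.length) M s t) h1 ?_
    refine Poly.map (l := fun p : Mat × ℕ => List.range (size c p.1.length))
      (F := fun (p : Mat × ℕ) t => adjB (List.replicate (kk c p.1.length) ()).length
        (4 ^ kk c p.1.length) p.1 p.2 t)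
      (h1.comp (Poly.fst Poly.id)) ?_
    exact poly_adjB.comp (f := fun p : (Mat × ℕ) × ℕ =>
      ((List.replicate (kk c p.1.1.length) (), 4 ^ kk c p.1.1.length, p.1.1), p.1.2, p.2))
      (Poly.pair (Poly.pair (h3.comp (Poly.fst (Poly.fst Poly.id)))
        (Poly.pair (h2.comp (Poly.fst (Poly.fst Poly.id))) (Poly.fst (Poly.fst Poly.id))))
        (Poly.pair (Poly.snd (Poly.fst Poly.id)) (Poly.snd Poly.id)))
  refine h.congr fun M => ?_
  rw [List.length_replicate]
  rfl

end Pool.Agent.NPC.PR56
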