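import Mathlib

/-!
# Tensor powers of a symmetric Hadamard matrix of order four

`par k x y` counts, modulo two, the positions at which the digits of `x` and `y` in base four add up
to three; the signs `(-1) ^ par k x y`, `x, y < 4 ^ k`, form a symmetric Hadamard matrix with
constant diagonal.
-/

set_option autoImplicit false

namespace Pool.Agent.H56.PR

open Finset

/-- The sign of a truth value: `-1` for true, `1` for false. -/
def sg (b : Bool) : ℤ := if b then -1 else 1

@[simp] theorem sg_true : sg true = -1 := rfl
@[simp] theorem sg_false : sg false = 1 := rfl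

theorem sg_xor (a b : Bool) : sg (a ^^ b) = sg a * sg b := by
  cases a <;> cases b <;> rfl

theorem sg_mul_self (a : Bool) : sg a * sg a = 1 := by
  cases a <;> rfl

theorem sg_inj {a b : Bool} (h : sg a = sg b) : a = b := by
  cases a <;> cases b <;> simp_all [sg]

theorem abs_sg (a : Bool) : |sg a| = 1 := by
  cases a <;> simp

/-- The parity of the number of the positions `t < k` at which the digits of `x` and `y` in base
four add up to three. -/
def par : ℕ → ℕ → ℕ → Bool
  | 0, _, _ => false
  | k + 1, x, y => decide (x % 4 + y % 4 = 3) ^^ par k (x / 4) (y / 4)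

theorem par_comm : ∀ k x y : ℕ, par k x y = par k y x
  | 0, _, _ => rfl
  | k + 1, x, y => by
    simp only [par]
    rw [par_comm k (x / 4) (y / 4), Nat.add_comm]

theorem par_self : ∀ k x : ℕ, par k x x = false
  | 0, _ => rfl
  | k + 1, x => by
    simp only [par]
    rw [par_self k (x / 4)]
    have h : ¬ (x % 4 + x % 4 = 3) := by omega
    simp [h]

theorem sum_range_four_mul (F : ℕ → ℤ) : ∀ m : ℕ, ∑ y ∈ range (4 * m), F y =
    ∑ y ∈ range m, (F (4 * y) + F (4 * y + 1) + F (4 * y + 2) + F (4 * y + 3))
  | 0 => by simp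
  | m + 1 => by
    rw [show 4 * (m + 1) = 4 * m + 1 + 1 + 1 + 1 by ring, sum_range_succ, sum_range_succ,
      sum_range_succ, sum_range_succ, sum_range_succ, sum_range_four_mul F m]
    ring

theorem gram : ∀ k x x' : ℕ, x < 4 ^ k → x' < 4 ^ k →
    ∑ y ∈ range (4 ^ k), sg (par k x y) * sg (par k x' y) = if x = x' then 4 ^ k else 0
  | 0, x, x', h, h' => by
    have e : x = 0 := by simpa using h
    have e' : x' = 0 := by simpa using h'
    subst e
    subst e'
    simp [par]
  | k + 1, x, x', h, h' => by
    have hx : x / 4 < 4 ^ k := by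
      rw [pow_succ] at h
      omega
    have hx' : x' / 4 < 4 ^ k := by
      rw [pow_succ] at h'
      omega
    have ih := gram k (x / 4) (x' / 4) hx hx'
    rw [pow_succ, mul_comm (4 ^ k) 4, sum_range_four_mul]
    have key : ∀ y : ℕ, (sg (par (k + 1) x (4 * y)) * sg (par (k + 1) x' (4 * y)) +
        sg (par (k + 1) x (4 * y + 1)) * sg (par (k + 1) x' (4 * y + 1)) +
        sg (par (k + 1) x (4 * y + 2)) * sg (par (k + 1) x' (4 * y + 2)) +
        sg (par (k + 1) x (4 * y + 3)) * sg (par (k + 1) x' (4 * y + 3))) =
        (if x % 4 = x' % 4 then 4 else 0) * (sg (par k (x / 4) y) * sg (par k (x' / 4) y)) := by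
      intro y
      have e0 : (4 * y) % 4 = 0 := by omega
      have e1 : (4 * y + 1) % 4 = 1 := by omega
      have e2 : (4 * y + 2) % 4 = 2 := by omega
      have e3 : (4 * y + 3) % 4 = 3 := by omega
      have d0 : (4 * y) / 4 = y := by omega
      have d1 : (4 * y + 1) / 4 = y := by omega
      have d2 : (4 * y + 2) / 4 = y := by omega
      have d3 : (4 * y + 3) / 4 = y := by omega
      simp only [par, e0, e1, e2, e3, d0, d1, d2, d3, sg_xor]
      have hm : x % 4 < 4 := Nat.mod_lt _ (by norm_num)
      have hm' : x' % 4 < 4 := Nat.mod_lt _ (by norm_num)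
      generalize x % 4 = u at hm ⊢
      generalize x' % 4 = v at hm' ⊢
      generalize sg (par k (x / 4) y) = A
      generalize sg (par k (x' / 4) y) = B
      interval_cases u <;> interval_cases v <;> simp <;> ring
    simp only [key]
    rw [← mul_sum, ih]
    by_cases hxx : x = x'
    · subst hxx
      simp only [if_true]
      ring
    · rw [if_neg hxx]
      by_cases h1 : x % 4 = x' % 4
      · have h2 : x / 4 ≠ x' / 4 := by omega
        rw [if_neg h2, mul_zero]
      · rw [if_neg h1, zero_mul]

theorem gram_fin (k : ℕ) (x x' : Fin (4 ^ k)) :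
    ∑ y : Fin (4 ^ k), sg (par k x y) * sg (par k x' y) = if x = x' then 4 ^ k else 0 := by
  have h := gram k x x' x.2 x'.2
  rw [Finset.sum_range] at h
  rw [h]
  simp only [Fin.ext_iff]

end Pool.Agent.H56.PR
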