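import Pool.Agent.H56.PR.Wl

/-!
# The Weisfeiler-Leman method on pseudorandom graphs with vertex set `Fin N`
-/

set_option autoImplicit false

namespace Pool.Agent.NPC.PR56

open Finset Pool.Agent.H56.PR Pool.Agent.W185.SRG

/-- The colours of the Weisfeiler-Leman method are invariant under isomorphism. -/
theorem wl_iso {V V' : Type} [Fintype V] [Fintype V'] {G : SimpleGraph V} {G' : SimpleGraph V'}
    (φ : G ≃g G') (k t : ℕ) (S : Fin k → V) : wl G k t S = wl G' k t (φ ∘ S) := by
  induction t generalizing S with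
  | zero =>
    refine Prod.ext ?_ ?_
    · funext i j
      refine propext ?_
      show S i = S j ↔ φ (S i) = φ (S j)
      exact φ.injective.eq_iff.symm
    · funext i j
      refine propext ?_
      show G.Adj (S i) (S j) ↔ G'.Adj (φ (S i)) (φ (S j))
      exact φ.map_adj_iff.symm
  | succ t ih =>
    refine Prod.ext (ih S) ?_
    show (Finset.univ : Finset V).val.map _ = (Finset.univ : Finset V').val.map _
    have e1 : (Finset.univ : Finset V').val = (Finset.univ : Finset V).val.map φ := by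
      have := congrArg Finset.val (Finset.map_univ_equiv φ.toEquiv)
      rw [← this]
      rfl
    rw [e1, Multiset.map_map]
    refine Multiset.map_congr rfl fun x _ => ?_
    funext i
    simp only [Function.comp_apply]
    rw [ih]
    congr 1
    rw [Function.comp_update]

/-- Transport along isomorphisms. -/
theorem wlEquivalent_of_iso {V V' W W' : Type} [Fintype V] [Fintype V'] [Fintype W] [Fintype W']
    {k : ℕ} {G : SimpleGraph V} {G' : SimpleGraph V'} {H : SimpleGraph W} {H' : SimpleGraph W'}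
    (φ : G' ≃g G) (χ : H ≃g H') (h : WLEquivalent k G H) : WLEquivalent k G' H' := by
  obtain ⟨ψ, hψ⟩ := h
  refine ⟨((Equiv.refl (Fin k)).arrowCongr φ.toEquiv).trans
    (ψ.trans ((Equiv.refl (Fin k)).arrowCongr χ.toEquiv)), fun t S => ?_⟩
  rw [wl_iso φ, hψ, wl_iso χ]
  rfl

/-- Pairs of graphs of the class which the Weisfeiler-Leman method does not distinguish. -/
theorem wl_lower_fin {ε : ℝ} (hε : 0 < ε) :
    ∃ C : ℕ, ∀ k : ℕ, 1 ≤ k → ∃ (N : ℕ) (G H : SimpleGraph (Fin N)), N ≤ C * k ^ C ∧
      Pseudorandom ε G ∧ Pseudorandom ε H ∧ ¬ Nonempty (G ≃g H) ∧ WLEquivalent k G H := by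
  obtain ⟨C, hC⟩ := wl_lower hε
  refine ⟨C, fun k hk => ?_⟩
  obtain ⟨V, _, P, Q, hP, hQ, hne, hwl, hcard⟩ := hC k hk
  let e : V ≃ Fin (Fintype.card V) := Fintype.equivFin V
  let i1 : P.comap e.symm ≃g P := SimpleGraph.Iso.comap e.symm P
  let i2 : Q.comap e.symm ≃g Q := SimpleGraph.Iso.comap e.symm Q
  refine ⟨Fintype.card V, P.comap e.symm, Q.comap e.symm, hcard, Pseudorandom.of_iso i1 hP,
    Pseudorandom.of_iso i2 hQ, ?_, wlEquivalent_of_iso i1 i2.symm hwl⟩
  rintro ⟨θ⟩
  exact hne.false ((i1.symm.trans θ).trans i2)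

end Pool.Agent.NPC.PR56
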